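import Pool.Agent.NDR.StmtsL

set_option autoImplicit false

open Finset

namespace Pool.Agent.NDR.H50

/-- a relation between functionals, from a dimension count -/
theorem rel_of_dim {σ τ κ : Type} [Fintype σ] [Fintype τ] [Fintype κ] [DecidableEq κ]
    (S : Submodule ℚ (σ → ℚ)) (t : τ → σ → ℚ) (hS : ∀ x, t x ∈ S) (hli : LinearIndependent ℚ t)
    (Ψ : (σ → ℚ) →ₗ[ℚ] (κ → ℚ)) (h0 : ∀ x, Ψ (t x) = 0)
    (hlt : Module.finrank ℚ S < Fintype.card τ + Fintype.card κ) :
    ∃ r : κ → ℚ, r ≠ 0 ∧ ∀ x ∈ S, ∑ k, r k * Ψ x k = 0 := by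
  set f : S →ₗ[ℚ] (κ → ℚ) := Ψ.domRestrict S with hf
  have h1 := LinearMap.finrank_range_add_finrank_ker f
  have h2 : Fintype.card τ ≤ Module.finrank ℚ (LinearMap.ker f) := by
    have hmem : ∀ x, (⟨t x, hS x⟩ : S) ∈ LinearMap.ker f := by
      intro x
      rw [LinearMap.mem_ker]
      exact h0 x
    have hli' : LinearIndependent ℚ (fun x => (⟨⟨t x, hS x⟩, hmem x⟩ : LinearMap.ker f)) := by
      apply LinearIndependent.of_comp (S.subtype.comp (LinearMap.ker f).subtype)
      exact hli
    exact hli'.fintype_card_le_finrank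
  have h3 : LinearMap.range f < ⊤ := by
    rw [lt_top_iff_ne_top]
    intro h
    rw [h, finrank_top, Module.finrank_fintype_fun_eq_card] at h1
    omega
  obtain ⟨φ, hφ0, hφ⟩ := Submodule.exists_le_ker_of_lt_top _ h3
  refine ⟨fun k => φ (fun j => if k = j then 1 else 0), ?_, ?_⟩
  · intro h
    apply hφ0
    apply LinearMap.ext
    intro v
    rw [LinearMap.pi_apply_eq_sum_univ φ v]
    rw [LinearMap.zero_apply]
    refine Finset.sum_eq_zero fun k _ => ?_
    have := congrFun h k
    simp only [Pi.zero_apply] at this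
    rw [this, smul_zero]
  · intro x hx
    have h4 : φ (Ψ x) = 0 := hφ ⟨⟨x, hx⟩, rfl⟩
    rw [LinearMap.pi_apply_eq_sum_univ φ (Ψ x)] at h4
    refine Eq.trans ?_ h4
    refine Finset.sum_congr rfl fun k _ => ?_
    rw [smul_eq_mul, mul_comm]

theorem dq_nonneg {σ : Type} [Fintype σ] {v : σ → ℚ} (hv : ∀ i, 0 ≤ v i) (a : σ →₀ ℕ) :
    0 ≤ dq v a := Finset.sum_nonneg fun i _ => mul_nonneg (hv i) (Nat.cast_nonneg _)

/-- the exponents in the star of `K'` -/
theorem fact1 {σ : Type} [Fintype σ] [DecidableEq σ] {A : Finset (σ →₀ ℕ)} {I : Finset σ}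
    {y : σ → ℚ} (hy : DualY A I y) {a : σ →₀ ℕ} (ha : a ∈ A) {k : σ} (hk : y k = 1)
    (hak : a k ≠ 0) : a k = 1 ∧ ∀ i, i ≠ k → 0 < y i → a i = 0 := by
  have h1 := hy.le a ha
  unfold dq at h1
  rw [← Finset.add_sum_erase _ _ (Finset.mem_univ k), hk, one_mul] at h1
  have hak1 : (1 : ℚ) ≤ (a k : ℚ) := by exact_mod_cast Nat.one_le_iff_ne_zero.mpr hak
  have h2 : ∀ i ∈ Finset.univ.erase k, 0 ≤ y i * (a i : ℚ) := fun i _ =>
    mul_nonneg (hy.nn i) (Nat.cast_nonneg _)
  have h3 := Finset.sum_nonneg h2
  constructor
  · have : (a k : ℚ) ≤ 1 := by linarith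
    have h4 : a k ≤ 1 := by exact_mod_cast this
    omega
  · intro i hik hyi
    have h4 : ∑ i ∈ Finset.univ.erase k, y i * (a i : ℚ) = 0 := by linarith
    have h5 := (Finset.sum_eq_zero_iff_of_nonneg h2).mp h4 i
      (Finset.mem_erase.mpr ⟨hik, Finset.mem_univ i⟩)
    rcases mul_eq_zero.mp h5 with h | h
    · exact absurd h hyi.ne'
    · exact_mod_cast h

theorem dq_sub_add {σ : Type} [Fintype σ] (y ψ : σ → ℚ) (t : ℚ) (a : σ →₀ ℕ) :
    dq (fun i => y i + t * ψ i) a = dq y a + t * dq ψ a := by
  unfold dq
  rw [Finset.mul_sum, ← Finset.sum_add_distrib]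
  refine Finset.sum_congr rfl fun i _ => ?_
  ring

theorem wsk : WskStmt := by
  classical
  intro σ _ A B I y hF hG hy K' hK'
  by_contra hcon
  push Not at hcon
  have hKI : ∀ k ∈ K', k ∈ I := by
    intro k hk
    by_contra hkI
    have := hy.off k hkI
    rw [hK' k hk] at this
    norm_num at this
  set E : Finset (σ →₀ ℕ) := A.filter (fun a => ∃ j ∈ K', a j ≠ 0) with hE
  set S : Submodule ℚ (σ → ℚ) := Submodule.span ℚ
      {v : σ → ℚ | ∃ a ∈ A, (∃ j ∈ K', a j ≠ 0) ∧ v = fun i => (a i : ℚ)} with hS
  -- the sets B_k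
  set Bk : σ → Finset (σ →₀ ℕ) := fun k => B.filter (fun b => b k ≠ 0) with hBk
  have hBne : ∀ k ∈ K', (Bk k).Nonempty := by
    intro k hk
    by_contra hne
    rw [Finset.not_nonempty_iff_eq_empty] at hne
    have h1 := hF.flat (Pi.single k 1) (by
      intro i hi
      have hik : i ≠ k := fun h => hi (h ▸ hKI k hk)
      rw [Pi.single_eq_of_ne hik]) (by
      intro b hb
      unfold dq
      refine Finset.sum_eq_zero fun i _ => ?_
      by_cases hik : i = k
      · rw [hik]
        have hbk : b k = 0 := by
          by_contra hbk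
          have : b ∈ Bk k := by
            rw [hBk]
            exact Finset.mem_filter.mpr ⟨hb, hbk⟩
          rw [hne] at this
          exact absurd this (Finset.notMem_empty b)
        rw [hbk]
        simp
      · rw [Pi.single_eq_of_ne hik, zero_mul])
    rw [Finset.sum_eq_single k (fun i _ hik => by rw [Pi.single_eq_of_ne hik])
      (fun h => absurd (Finset.mem_univ k) h), Pi.single_eq_same] at h1
    norm_num at h1
  set K1 : Finset σ := K'.filter (fun k => (Bk k).card = 1) with hK1
  have hK1K : ∀ k ∈ K1, k ∈ K' := fun k hk => (Finset.mem_filter.mp hk).1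
  -- the private partner
  have hl : ∀ k : σ, ∃ l : σ, k ∈ K1 → l ∈ I ∧ l ≠ k ∧ y l = 0 ∧
      ∀ b ∈ B, (b l : ℚ) - (b k : ℚ) = 0 := by
    intro k
    by_cases hk : k ∈ K1
    · have hk' := hK1K k hk
      obtain ⟨b, hb⟩ := Finset.card_eq_one.mp (Finset.mem_filter.mp hk).2
      have hbB : b ∈ B ∧ b k ≠ 0 := by
        have : b ∈ Bk k := by rw [hb]; exact Finset.mem_singleton_self b
        rw [hBk] at this
        exact Finset.mem_filter.mp this
      have hpriv : ∀ b' ∈ B, b' ≠ b → b' k = 0 := by
        intro b' hb' hne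
        by_contra hbk
        have : b' ∈ Bk k := by
          rw [hBk]
          exact Finset.mem_filter.mpr ⟨hb', hbk⟩
        rw [hb] at this
        exact hne (Finset.mem_singleton.mp this)
      have hf1 := fact1 hy (hF.sub hbB.1) (hK' k hk') hbB.2
      obtain ⟨l, hlI, hlk, hbl, hbl'⟩ := hG b hbB.1 k (hKI k hk') hf1.1 hpriv
      refine ⟨l, fun _ => ⟨hlI, hlk, ?_, ?_⟩⟩
      · by_contra hyl
        have hpos : 0 < y l := lt_of_le_of_ne (hy.nn l) (Ne.symm hyl)
        have := hf1.2 l hlk hpos
        omega
      · intro b' hb'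
        by_cases h : b' = b
        · rw [h, hbl, hf1.1]
          simp
        · rw [hbl' b' hb' h, hpriv b' hb' h]
          simp
    · exact ⟨k, fun h => absurd h hk⟩
  choose l hl using hl
  -- the linear map
  set Ψ : (σ → ℚ) →ₗ[ℚ] (K1 → ℚ) :=
    { toFun := fun v k => v (l k) - v k
      map_add' := by
        intro u v
        funext k
        simp only [Pi.add_apply]
        ring
      map_smul' := by
        intro c v
        funext k
        simp only [Pi.smul_apply, smul_eq_mul, RingHom.id_apply]
        ring } with hΨ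
  set BE : Finset (σ →₀ ℕ) := B.filter (fun b => ∃ j ∈ K', b j ≠ 0) with hBE
  have hcard : 2 * K'.card ≤ BE.card + K1.card := by
    have h1 : ∑ k ∈ K', (Bk k).card ≤ BE.card := by
      rw [← Finset.card_biUnion]
      · apply Finset.card_le_card
        intro b hb
        rw [Finset.mem_biUnion] at hb
        obtain ⟨k, hk, hbk⟩ := hb
        rw [hBk] at hbk
        rw [hBE, Finset.mem_filter]
        exact ⟨(Finset.mem_filter.mp hbk).1, k, hk, (Finset.mem_filter.mp hbk).2⟩
      · intro k hk k' hk' hne
        change Disjoint (Bk k) (Bk k')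
        rw [Finset.disjoint_left]
        intro b hb hb'
        rw [hBk] at hb hb'
        have h2 := Finset.mem_filter.mp hb
        have h3 := Finset.mem_filter.mp hb'
        have h4 := (fact1 hy (hF.sub h2.1) (hK' k hk) h2.2).2 k' (Ne.symm hne)
          (by rw [hK' k' hk']; norm_num)
        exact h3.2 h4
    have h2 : ∀ k ∈ K', 2 ≤ (Bk k).card + if (Bk k).card = 1 then 1 else 0 := by
      intro k hk
      have := Finset.card_pos.mpr (hBne k hk)
      split_ifs with h
      · omega
      · omega
    have h3 := Finset.sum_le_sum h2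
    rw [Finset.sum_const, Finset.sum_add_distrib, smul_eq_mul, ← Finset.card_filter] at h3
    have h4 : (K'.filter (fun k => (Bk k).card = 1)).card = K1.card := rfl
    rw [h4] at h3
    omega
  obtain ⟨r, hr0, hr⟩ := rel_of_dim S (fun b : BE => fun i => ((b : σ →₀ ℕ) i : ℚ))
    (by
      intro b
      apply Submodule.subset_span
      have := Finset.mem_filter.mp b.2
      exact ⟨b, hF.sub this.1, this.2, rfl⟩)
    (by
      rw [Fintype.linearIndependent_iff]
      intro c hc b
      have h1 := hF.ind (fun a => if h : a ∈ BE then c ⟨a, h⟩ else 0) (by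
        intro i
        have h2 := congrFun hc i
        rw [Finset.sum_apply] at h2
        have h3 : ∑ a ∈ B, (if h : a ∈ BE then c ⟨a, h⟩ else 0) * (a i : ℚ) =
            ∑ a ∈ BE, (if h : a ∈ BE then c ⟨a, h⟩ else 0) * (a i : ℚ) := by
          symm
          apply Finset.sum_subset (Finset.filter_subset _ _)
          intro a _ ha
          rw [dif_neg ha, zero_mul]
        rw [h3, ← Finset.sum_coe_sort BE]
        have h4 : ∑ a : BE, (if h : (a : σ →₀ ℕ) ∈ BE then c ⟨a, h⟩ else 0) *
            ((a : σ →₀ ℕ) i : ℚ) = ∑ a : BE, c a * ((a : σ →₀ ℕ) i : ℚ) := by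
          refine Finset.sum_congr rfl fun a _ => ?_
          rw [dif_pos a.2]
        rw [h4]
        exact h2) b (Finset.filter_subset _ _ b.2)
      rw [dif_pos b.2] at h1
      exact h1)
    Ψ (by
      intro b
      funext k
      have := Finset.mem_filter.mp b.2
      exact (hl k k.2).2.2.2 b this.1)
    (by
      rw [Fintype.card_coe, Fintype.card_coe]
      omega)
  -- wlog a positive coefficient
  have hmain : ∀ r : K1 → ℚ, (∃ k, 0 < r k) → (∀ x ∈ S, ∑ k, r k * Ψ x k = 0) → False := by
    intro r hpos hr
    set ψ : σ → ℚ := fun i => ∑ k : K1, (if 0 < r k then r k else 0) *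
      ((if i = l k then 1 else 0) - (if i = k then 1 else 0)) with hψ
    have hdq : ∀ a : σ →₀ ℕ, dq ψ a = ∑ k : K1, (if 0 < r k then r k else 0) *
        ((a (l k) : ℚ) - (a k : ℚ)) := by
      intro a
      unfold dq
      have h1 : ∀ i, ψ i * (a i : ℚ) = ∑ k : K1, (if 0 < r k then r k else 0) *
          ((if i = l k then (a i : ℚ) else 0) - (if i = k then (a i : ℚ) else 0)) := by
        intro i
        rw [hψ]
        simp only
        rw [Finset.sum_mul]
        refine Finset.sum_congr rfl fun k _ => ?_
        split_ifs <;> ring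
      rw [Finset.sum_congr rfl fun i _ => h1 i, Finset.sum_comm]
      refine Finset.sum_congr rfl fun k _ => ?_
      rw [← Finset.mul_sum, Finset.sum_sub_distrib, Finset.sum_ite_eq' Finset.univ (l k),
        Finset.sum_ite_eq' Finset.univ (k : σ), if_pos (Finset.mem_univ _),
        if_pos (Finset.mem_univ _)]
    have hsum : ∑ i, ψ i = 0 := by
      rw [hψ]
      simp only
      rw [Finset.sum_comm]
      refine Finset.sum_eq_zero fun k _ => ?_
      rw [← Finset.mul_sum, Finset.sum_sub_distrib, Finset.sum_ite_eq' Finset.univ (l k),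
        Finset.sum_ite_eq' Finset.univ (k : σ), if_pos (Finset.mem_univ _),
        if_pos (Finset.mem_univ _), sub_self, mul_zero]
    have hoff : Off I ψ := by
      intro i hi
      rw [hψ]
      simp only
      refine Finset.sum_eq_zero fun k _ => ?_
      have h1 : i ≠ l k := fun h => hi (h ▸ (hl k k.2).1)
      have h2 : i ≠ k := fun h => hi (h ▸ hKI k (hK1K k k.2))
      rw [if_neg h1, if_neg h2, sub_self, mul_zero]
    have hB0 : ∀ b ∈ B, dq ψ b = 0 := by
      intro b hb
      rw [hdq]
      refine Finset.sum_eq_zero fun k _ => ?_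
      rw [(hl k k.2).2.2.2 b hb, mul_zero]
    have hnn : ∀ a ∈ A, 0 ≤ dq ψ a := by
      intro a ha
      by_cases hk : ∃ k : K1, 0 < r k ∧ a k ≠ 0
      · obtain ⟨k0, hk0, hak0⟩ := hk
        have hf1 := fact1 hy ha (hK' k0 (hK1K k0 k0.2)) hak0
        have h1 : (fun i => (a i : ℚ)) ∈ S := by
          apply Submodule.subset_span
          exact ⟨a, ha, ⟨k0, hK1K k0 k0.2, hak0⟩, rfl⟩
        have h2 := hr _ h1
        have h3 : dq ψ a = ∑ k : K1, (if 0 < r k then 0 else -r k) *
            ((a (l k) : ℚ) - (a k : ℚ)) := by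
          rw [hdq]
          have h4 : ∑ k : K1, ((if 0 < r k then r k else 0) * ((a (l k) : ℚ) - (a k : ℚ)) -
              (if 0 < r k then 0 else -r k) * ((a (l k) : ℚ) - (a k : ℚ))) = 0 := by
            refine Eq.trans ?_ h2
            refine Finset.sum_congr rfl fun k _ => ?_
            have h5 : Ψ (fun i => (a i : ℚ)) k = (a (l k) : ℚ) - (a k : ℚ) := rfl
            rw [h5]
            split_ifs <;> ring
          rw [Finset.sum_sub_distrib] at h4
          linarith
        rw [h3]
        refine Finset.sum_nonneg fun k _ => ?_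
        split_ifs with hrk
        · rw [zero_mul]
        · have hne : (k : σ) ≠ k0 := by
            intro h
            have : k = k0 := Subtype.ext h
            rw [this] at hrk
            exact hrk hk0
          have h6 := hf1.2 k hne (by rw [hK' k (hK1K k k.2)]; norm_num)
          rw [h6]
          push_cast
          rw [sub_zero]
          exact mul_nonneg (by linarith) (Nat.cast_nonneg _)
      · push Not at hk
        rw [hdq]
        refine Finset.sum_nonneg fun k _ => ?_
        split_ifs with hrk
        · rw [hk k hrk]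
          push_cast
          rw [sub_zero]
          exact mul_nonneg hrk.le (Nat.cast_nonneg _)
        · rw [zero_mul]
    have hA0 := hF.min ψ hoff hnn hB0
    -- the size of the step
    set R : ℚ := 1 + ∑ k : K1, (if 0 < r k then r k else 0) with hR
    have hpk : ∀ k : K1, 0 ≤ (if 0 < r k then r k else 0) := by
      intro k
      split_ifs with h
      · exact h.le
      · exact le_rfl
    have hRpos : 0 < R := by
      have := Finset.sum_nonneg fun (k : K1) (_ : k ∈ Finset.univ) => hpk k
      rw [hR]
      linarith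
    set t : ℚ := 1 / R with ht
    have htpos : 0 < t := div_pos one_pos hRpos
    -- l k is not in K1
    have hlK : ∀ k : K1, y (l k) = 0 := fun k => (hl k k.2).2.2.1
    have hnn' : ∀ i, 0 ≤ y i + t * ψ i := by
      intro i
      by_cases hi : i ∈ K1
      · have hyi : y i = 1 := hK' i (hK1K i hi)
        have h1 : -∑ k : K1, (if 0 < r k then r k else 0) ≤ ψ i := by
          rw [hψ, ← Finset.sum_neg_distrib]
          refine Finset.sum_le_sum fun k _ => ?_
          have h2 := hpk k
          have h3 : (-1 : ℚ) ≤ (if i = l k then (1 : ℚ) else 0) - (if i = k then 1 else 0) := by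
            split_ifs <;> norm_num
          nlinarith
        have h4 : ∑ k : K1, (if 0 < r k then r k else 0) = R - 1 := by rw [hR]; ring
        rw [h4] at h1
        rw [hyi]
        have h5 : t * (-(R - 1)) ≤ t * ψ i := mul_le_mul_of_nonneg_left h1 htpos.le
        have h6 : t * R = 1 := by rw [ht]; field_simp
        nlinarith
      · have h1 : 0 ≤ ψ i := by
          rw [hψ]
          refine Finset.sum_nonneg fun k _ => ?_
          have h2 : i ≠ k := fun h => hi (h ▸ k.2)
          rw [if_neg h2, sub_zero]
          refine mul_nonneg (hpk k) ?_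
          split_ifs <;> norm_num
        have := hy.nn i
        have := mul_nonneg htpos.le h1
        linarith
    obtain ⟨k1, hk1⟩ := hpos
    have hmax := hy.max (fun i => y i + t * ψ i) (by
      intro i hi
      show y i + t * ψ i = 0
      rw [hy.off i hi, hoff i hi, mul_zero, add_zero]) hnn' (by
      intro a ha
      rw [dq_sub_add, hA0 a ha, mul_zero, add_zero]
      exact hy.le a ha) (by
      rw [Finset.sum_add_distrib, ← Finset.mul_sum, hsum, mul_zero, add_zero]) (by
      refine Finset.sum_congr rfl fun a ha => ?_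
      rw [dq_sub_add, hA0 a ha, mul_zero, add_zero]) (l k1) (by
      show 0 < y (l k1) + t * ψ (l k1)
      rw [hlK k1, zero_add]
      refine mul_pos htpos ?_
      rw [hψ]
      have hnot : ∀ k : K1, l k1 ≠ k := by
        intro k h
        have h1 : y (k : σ) = 1 := hK' k (hK1K k k.2)
        rw [← h, hlK k1] at h1
        norm_num at h1
      have h2 : ∀ k ∈ (Finset.univ : Finset K1), 0 ≤ (if 0 < r k then r k else 0) *
          ((if l k1 = l k then (1 : ℚ) else 0) - (if l k1 = k then 1 else 0)) := by
        intro k _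
        rw [if_neg (hnot k), sub_zero]
        refine mul_nonneg (hpk k) ?_
        split_ifs <;> norm_num
      refine lt_of_lt_of_le ?_ (Finset.single_le_sum h2 (Finset.mem_univ k1))
      rw [if_pos hk1, if_pos rfl, if_neg (hnot k1), sub_zero, mul_one]
      exact hk1)
    rw [hlK k1] at hmax
    exact lt_irrefl _ hmax
  by_cases hpos : ∃ k, 0 < r k
  · exact hmain r hpos hr
  · push Not at hpos
    refine hmain (fun k => -r k) ?_ ?_
    · by_contra hneg
      push Not at hneg
      apply hr0
      funext k
      have h1 := hpos k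
      have h2 := hneg k
      show r k = 0
      linarith
    · intro x hx
      have h1 := hr x hx
      have h2 : ∑ k, -r k * Ψ x k = -∑ k, r k * Ψ x k := by
        rw [← Finset.sum_neg_distrib]
        refine Finset.sum_congr rfl fun k _ => ?_
        ring
      rw [h2, h1, neg_zero]

end Pool.Agent.NDR.H50
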